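import Pool.Agent.Q229.PL.Sum
import Pool.Agent.H671R2.SubsetSum

/-!
# The inequalities
-/

set_option autoImplicit false

namespace Q229.PL

open Pool.Agent.NPC.R671.SS Finset

theorem out_core {n : ℕ} {a u h s t p : ℕ → ℝ} {B : ℝ}
    (hu : ∀ i < n, 0 ≤ u i) (hh : ∀ i < n, 0 ≤ h i) (hs : ∀ i < n, 0 ≤ s i)
    (ht : ∀ i < n, 0 ≤ t i) (hc : ∀ i < n, u i + h i = s i + t i)
    (hcap : ∀ i < n, u i + h i ≤ a i) (hb : ∀ i < n, h i = p i * (s i + t i))
    (hB : ∑ i ∈ range n, s i ≤ B) (h0 : ∑ i ∈ range n, p i * s i ≤ 0)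
    (hcost : ∑ i ∈ range n, (u i - 3 * s i - t i) ≤ -(∑ i ∈ range n, a i) - B) :
    (∀ i < n, s i = 0 ∨ s i = a i) ∧ ∑ i ∈ range n, s i = B := by
  have h1 : ∀ i ∈ range n, 0 ≤ p i * s i := by
    intro i hi
    have hi' := mem_range.1 hi
    by_contra hcon
    push Not at hcon
    have hs' : 0 < s i := by
      rcases (hs i hi').lt_or_eq with h1 | h1
      · exact h1
      · rw [← h1] at hcon; simp at hcon
    have hp : p i < 0 := by
      by_contra h2
      push Not at h2
      exact absurd (mul_nonneg h2 hs'.le) (by linarith)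
    have h3 : p i * (s i + t i) < 0 := mul_neg_of_neg_of_pos hp (by linarith [ht i hi'])
    linarith [hh i hi', hb i hi']
  have h2 : ∀ i ∈ range n, p i * s i = 0 :=
    (sum_eq_zero_iff_of_nonneg h1).1 (le_antisymm h0 (sum_nonneg h1))
  have h3 : ∀ i ∈ range n, 0 ≤ a i + s i + (u i - 3 * s i - t i) := by
    intro i hi
    have hi' := mem_range.1 hi
    have e1 := hc i hi'
    have e2 := hcap i hi'
    have e3 := hb i hi'
    rcases mul_eq_zero.1 (h2 i hi) with h4 | h4
    · rw [h4] at e3
      linarith [hs i hi', ht i hi']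
    · rw [h4] at e1 ⊢
      linarith [hu i hi', hh i hi']
  have h4 : ∑ i ∈ range n, (a i + s i + (u i - 3 * s i - t i)) ≤ 0 := by
    rw [sum_add_distrib, sum_add_distrib]
    linarith
  have h5 := (sum_eq_zero_iff_of_nonneg h3).1 (le_antisymm h4 (sum_nonneg h3))
  refine ⟨fun i hi => ?_, ?_⟩
  · have e0 := h5 i (mem_range.2 hi)
    have e1 := hc i hi
    have e2 := hcap i hi
    have e3 := hb i hi
    rcases mul_eq_zero.1 (h2 i (mem_range.2 hi)) with h6 | h6
    · rw [h6] at e3
      right
      linarith [hs i hi, ht i hi]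
    · exact Or.inl h6
  · have h6 : ∑ i ∈ range n, (a i + s i + (u i - 3 * s i - t i)) = 0 :=
      sum_eq_zero h5
    rw [sum_add_distrib, sum_add_distrib] at h6
    linarith

theorem in_core {n : ℕ} {a u h s t p : ℕ → ℝ} {B : ℝ}
    (hu : ∀ i < n, 0 ≤ u i) (hh : ∀ i < n, 0 ≤ h i) (hs : ∀ i < n, 0 ≤ s i)
    (ht : ∀ i < n, 0 ≤ t i) (hc : ∀ i < n, u i + h i = s i + t i)
    (hcap : ∀ i < n, u i + h i ≤ a i) (hb : ∀ i < n, h i = p i * (s i + t i))
    (hB : ∑ i ∈ range n, u i ≤ B) (h0 : ∀ i < n, p i * s i ≤ 0)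
    (hcost : ∑ i ∈ range n, (- 2 * s i - t i) ≤ -(∑ i ∈ range n, a i) - B) :
    (∀ i < n, u i = 0 ∨ u i = a i) ∧ ∑ i ∈ range n, u i = B := by
  have h1 : ∀ i < n, 0 ≤ p i * s i := by
    intro i hi'
    by_contra hcon
    push Not at hcon
    have hs' : 0 < s i := by
      rcases (hs i hi').lt_or_eq with h1 | h1
      · exact h1
      · rw [← h1] at hcon; simp at hcon
    have hp : p i < 0 := by
      by_contra h2
      push Not at h2
      exact absurd (mul_nonneg h2 hs'.le) (by linarith)
    have h3 : p i * (s i + t i) < 0 := mul_neg_of_neg_of_pos hp (by linarith [ht i hi'])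
    linarith [hh i hi', hb i hi']
  have h2 : ∀ i < n, p i * s i = 0 := fun i hi => le_antisymm (h0 i hi) (h1 i hi)
  have h3 : ∀ i ∈ range n, 0 ≤ a i + u i + (- 2 * s i - t i) := by
    intro i hi
    have hi' := mem_range.1 hi
    have e1 := hc i hi'
    have e2 := hcap i hi'
    have e3 := hb i hi'
    rcases mul_eq_zero.1 (h2 i hi') with h4 | h4
    · rw [h4] at e3
      linarith [hs i hi', ht i hi']
    · rw [h4] at e1 ⊢
      linarith [hu i hi', hh i hi']
  have h4 : ∑ i ∈ range n, (a i + u i + (- 2 * s i - t i)) ≤ 0 := by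
    rw [sum_add_distrib, sum_add_distrib]
    linarith
  have h5 := (sum_eq_zero_iff_of_nonneg h3).1 (le_antisymm h4 (sum_nonneg h3))
  refine ⟨fun i hi => ?_, ?_⟩
  · have e0 := h5 i (mem_range.2 hi)
    have e1 := hc i hi
    have e2 := hcap i hi
    have e3 := hb i hi
    rcases mul_eq_zero.1 (h2 i hi) with h6 | h6
    · rw [h6] at e3
      right
      linarith [hs i hi, ht i hi]
    · left
      rw [h6] at e0 e1
      linarith [hu i hi, hh i hi]
  · have h6 : ∑ i ∈ range n, (a i + u i + (- 2 * s i - t i)) = 0 :=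
      sum_eq_zero h5
    rw [sum_add_distrib, sum_add_distrib] at h6
    linarith

/-- Selections of list entries. -/
theorem sublist_sum_iff : ∀ (l : List ℕ) (T : ℕ), (∃ t : List ℕ, t.Sublist l ∧ t.sum = T) ↔
    ∃ c : ℕ → Bool, (∑ i ∈ range l.length, if c i then l.getD i 0 else 0) = T := by
  intro l
  induction l with
  | nil =>
    intro T
    constructor
    · rintro ⟨t, ht, hT⟩
      rw [List.sublist_nil] at ht
      subst ht
      exact ⟨fun _ => false, by simpa using hT⟩
    · rintro ⟨c, hc⟩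
      exact ⟨[], List.Sublist.refl _, by simpa using hc⟩
  | cons a l ih =>
    intro T
    constructor
    · rintro ⟨t, ht, hT⟩
      rcases List.sublist_cons_iff.1 ht with h | ⟨r, rfl, hr⟩
      · obtain ⟨c, hc⟩ := (ih T).1 ⟨t, h, hT⟩
        refine ⟨fun i => if i = 0 then false else c (i - 1), ?_⟩
        rw [List.length_cons, sum_range_succ']
        simpa using hc
      · rw [List.sum_cons] at hT
        obtain ⟨c, hc⟩ := (ih r.sum).1 ⟨r, hr, rfl⟩
        refine ⟨fun i => if i = 0 then true else c (i - 1), ?_⟩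
        rw [List.length_cons, sum_range_succ']
        simp only [Nat.add_eq_zero_iff, one_ne_zero, and_false, if_false, Nat.add_sub_cancel,
          List.getD_cons_succ, if_true, List.getD_cons_zero]
        rw [hc]
        omega
    · rintro ⟨c, hc⟩
      rw [List.length_cons, sum_range_succ'] at hc
      simp only [List.getD_cons_succ, List.getD_cons_zero] at hc
      obtain ⟨t, ht, hT⟩ := (ih (∑ i ∈ range l.length, if c (i + 1) then l.getD i 0 else 0)).2
        ⟨fun i => c (i + 1), rfl⟩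
      by_cases h0 : c 0 = true
      · refine ⟨a :: t, ht.cons_cons a, ?_⟩
        rw [if_pos h0] at hc
        rw [List.sum_cons, hT, ← hc]
        exact Nat.add_comm _ _
      · refine ⟨t, ht.cons a, ?_⟩
        rw [if_neg h0] at hc
        rw [hT, ← hc]
        rfl

/-- A subset sum from reals. -/
theorem subsetSum_of {a : List ℕ} {B : ℕ} {s : ℕ → ℝ}
    (h : ∀ i < a.length, s i = 0 ∨ s i = (a.getD i 0 : ℕ)) (hB : ∑ i ∈ range a.length, s i = B) :
    SubsetSum (a, B) := by
  classical
  unfold SubsetSum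
  rw [sublist_sum_iff]
  refine ⟨fun i => decide (s i ≠ 0), ?_⟩
  have h1 : ((∑ i ∈ range a.length, if decide (s i ≠ 0) = true then a.getD i 0 else 0 : ℕ) : ℝ) =
      ((B : ℕ) : ℝ) := by
    rw [← hB]
    push_cast
    refine sum_congr rfl fun i hi => ?_
    by_cases h2 : s i = 0
    · simp [h2]
    · rcases h i (mem_range.1 hi) with h3 | h3
      · exact absurd h3 h2
      · simp only [ne_eq, h2, not_false_eq_true, decide_true, if_true]
        exact h3.symm
  exact_mod_cast h1

end Q229.PL
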