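import Mathlib

/-!
# The pooling problem with one quality
-/

set_option autoImplicit false

namespace Q229.PL

/-- An arc: its tail and its head (numbers of vertices in their layers), its cost and its
capacity. -/
abbrev Arc : Type := (ℕ × ℕ) × ℚ × ℚ

/-- A network of the pooling problem with one quality: the inputs (capacity, quality), the pools
(capacity), the outputs (capacity, bound for the quality), the arcs from inputs to pools and the
arcs from pools to outputs. -/
abbrev Net : Type := List (ℚ × ℚ) × List ℚ × List (ℚ × ℚ) × List Arc × List Arc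

namespace Net

/-- the inputs: capacity and quality -/
def inputs (I : Net) : List (ℚ × ℚ) := I.1

/-- the capacities of the pools -/
def pools (I : Net) : List ℚ := I.2.1

/-- the outputs: capacity and bound for the quality -/
def outputs (I : Net) : List (ℚ × ℚ) := I.2.2.1

/-- the arcs from inputs to pools -/
def arcsI (I : Net) : List Arc := I.2.2.2.1

/-- the arcs from pools to outputs -/
def arcsJ (I : Net) : List Arc := I.2.2.2.2

/-- The arcs join inputs to pools and pools to outputs, there are no parallel arcs and the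
capacities are nonnegative. -/
structure Valid (I : Net) : Prop where
  arcsI_mem : ∀ a ∈ I.arcsI, a.1.1 < I.inputs.length ∧ a.1.2 < I.pools.length ∧ 0 ≤ a.2.2
  arcsJ_mem : ∀ a ∈ I.arcsJ, a.1.1 < I.pools.length ∧ a.1.2 < I.outputs.length ∧ 0 ≤ a.2.2
  arcsI_nodup : (I.arcsI.map Prod.fst).Nodup
  arcsJ_nodup : (I.arcsJ.map Prod.fst).Nodup
  inputs_nonneg : ∀ v ∈ I.inputs, 0 ≤ v.1
  pools_nonneg : ∀ c ∈ I.pools, 0 ≤ c
  outputs_nonneg : ∀ v ∈ I.outputs, 0 ≤ v.1

end Net

/-- the number of arcs of the list with tail `v` -/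
def outDeg (A : List Arc) (v : ℕ) : ℕ := A.countP fun a => a.1.1 = v

/-- the number of arcs of the list with head `v` -/
def inDeg (A : List Arc) (v : ℕ) : ℕ := A.countP fun a => a.1.2 = v

/-- Every input and every pool has out-degree at most two. -/
def OutDegreesAtMostTwo (I : Net) : Prop :=
  (∀ i < I.inputs.length, outDeg I.arcsI i ≤ 2) ∧ ∀ l < I.pools.length, outDeg I.arcsJ l ≤ 2

/-- Every pool and every output has in-degree at most two. -/
def InDegreesAtMostTwo (I : Net) : Prop :=
  (∀ l < I.pools.length, inDeg I.arcsI l ≤ 2) ∧ ∀ j < I.outputs.length, inDeg I.arcsJ j ≤ 2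

/-- the sum of `f` over the arcs of the list with tail `v` -/
noncomputable def outSum (A : List Arc) (f : ℕ × ℕ → ℝ) (v : ℕ) : ℝ :=
  (A.map fun a => if a.1.1 = v then f a.1 else 0).sum

/-- the sum of `f` over the arcs of the list with head `v` -/
noncomputable def inSum (A : List Arc) (f : ℕ × ℕ → ℝ) (v : ℕ) : ℝ :=
  (A.map fun a => if a.1.2 = v then f a.1 else 0).sum

/-- Feasible solutions: the flows `x` on the arcs from inputs to pools, the flows `y` on the arcs
from pools to outputs, and the qualities `p` of the pools. -/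
structure Feasible (I : Net) (x y : ℕ × ℕ → ℝ) (p : ℕ → ℝ) : Prop where
  x_mem : ∀ a ∈ I.arcsI, 0 ≤ x a.1 ∧ x a.1 ≤ a.2.2
  y_mem : ∀ a ∈ I.arcsJ, 0 ≤ y a.1 ∧ y a.1 ≤ a.2.2
  inputs_cap : ∀ i < I.inputs.length, outSum I.arcsI x i ≤ (I.inputs.getD i (0, 0)).1
  conservation : ∀ l < I.pools.length, inSum I.arcsI x l = outSum I.arcsJ y l
  pools_cap : ∀ l < I.pools.length, inSum I.arcsI x l ≤ I.pools.getD l 0
  outputs_cap : ∀ j < I.outputs.length, inSum I.arcsJ y j ≤ (I.outputs.getD j (0, 0)).1
  pool_blending : ∀ l < I.pools.length,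
    inSum I.arcsI (fun a => (I.inputs.getD a.1 (0, 0)).2 * x a) l = p l * outSum I.arcsJ y l
  output_blending : ∀ j < I.outputs.length,
    inSum I.arcsJ (fun a => p a.1 * y a) j ≤ (I.outputs.getD j (0, 0)).2 * inSum I.arcsJ y j

/-- the cost of a solution -/
noncomputable def cost (I : Net) (x y : ℕ × ℕ → ℝ) : ℝ :=
  (I.arcsI.map fun a => (a.2.1 : ℝ) * x a.1).sum + (I.arcsJ.map fun a => (a.2.1 : ℝ) * y a.1).sum

/-- There is a feasible solution of cost at most `θ`. -/
def HasCost (I : Net) (θ : ℚ) : Prop := ∃ x y p, Feasible I x y p ∧ cost I x y ≤ θ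

/-- The decision problem for networks with all out-degrees at most two. -/
def PoolOut (X : Net × ℚ) : Prop := X.1.Valid ∧ OutDegreesAtMostTwo X.1 ∧ HasCost X.1 X.2

/-- The decision problem for networks with all in-degrees at most two. -/
def PoolIn (X : Net × ℚ) : Prop := X.1.Valid ∧ InDegreesAtMostTwo X.1 ∧ HasCost X.1 X.2

end Q229.PL
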