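import Pool.Agent.Q229.PL.In

/-!
# Hardness of the pooling problem
-/

set_option autoImplicit false

namespace Q229.PL

open Pool.Agent.NPC Pool.Agent.NPC.R671.SS

@[fun_prop]
theorem poly_natCast_rat {α : Type} [TEnc α] {f : α → ℕ} (hf : Poly f) :
    Poly (fun a => ((f a : ℕ) : ℚ)) :=
  Poly.of_toT ((Poly.toT' (Poly.pair (Poly.natCast hf) (Pool.Agent.NPC.Poly.const 1))).congr
    fun a => by
      change toT (((f a : ℕ) : ℤ), 1) = toT ((((f a : ℕ) : ℚ)).num, (((f a : ℕ) : ℚ)).den)
      simp)

@[fun_prop]
theorem poly_sum' {α : Type} [TEnc α] {l : α → List ℕ} (hl : Poly l) :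
    Poly (fun a => (l a).sum) := Poly.sum hl

@[fun_prop]
theorem poly_A' {α : Type} [TEnc α] {a : α → List ℕ} {i : α → ℕ} (ha : Poly a) (hi : Poly i) :
    Poly (fun z => A (a z) (i z)) := by
  unfold A
  fun_prop

@[fun_prop]
theorem poly_range' {α β : Type} [TEnc α] [TEnc β] {l : α → List β} (hl : Poly l) :
    Poly (fun a => List.range ((l a).length)) :=
  (UPoly.length hl).range

theorem poly_thr : Poly thr := by
  unfold thr
  fun_prop

theorem poly_netO : Poly netO := by
  unfold netO two
  fun_prop

theorem poly_netI : Poly netI := by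
  unfold netI two
  fun_prop

theorem hardI_out : HardI PoolOut := by
  refine HardI.trans (f := fun x => (netO x, thr x)) (hardPr_SubsetSum.toHardI)
    (Poly.pair poly_netO poly_thr) fun x => ?_
  constructor
  · intro h
    exact ⟨netO_valid x, netO_deg x, netO_feasible x h⟩
  · rintro ⟨-, -, f, g, p, h1, h2⟩
    exact netO_of_feasible x h1 h2

theorem hardI_in : HardI PoolIn := by
  refine HardI.trans (f := fun x => (netI x, thr x)) (hardPr_SubsetSum.toHardI)
    (Poly.pair poly_netI poly_thr) fun x => ?_
  constructor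
  · intro h
    exact ⟨netI_valid x, netI_deg x, netI_feasible x h⟩
  · rintro ⟨-, -, f, g, p, h1, h2⟩
    exact netI_of_feasible x h1 h2

end Q229.PL
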