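import Pool.Agent.Q229.PL.Core
import Pool.Agent.Q229.RatP

/-!
# Out-degrees at most two
-/

set_option autoImplicit false

namespace Q229.PL

open Pool.Agent.NPC.R671.SS Finset

theorem inSum_two (n : ℕ) (P Q : ℕ → Arc) (f : ℕ × ℕ → ℝ) (v : ℕ) :
    inSum (two n P Q) f v = ∑ i ∈ range n, ((if (P i).1.2 = v then f (P i).1 else 0) +
      (if (Q i).1.2 = v then f (Q i).1 else 0)) := sum_two _ _ _ _

theorem outSum_two (n : ℕ) (P Q : ℕ → Arc) (f : ℕ × ℕ → ℝ) (v : ℕ) :
    outSum (two n P Q) f v = ∑ i ∈ range n, ((if (P i).1.1 = v then f (P i).1 else 0) +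
      (if (Q i).1.1 = v then f (Q i).1 else 0)) := sum_two _ _ _ _

/-- the items -/
def A (a : List ℕ) (i : ℕ) : ℚ := ((a.getD i 0 : ℕ) : ℚ)

/-- the network -/
def netO (x : List ℕ × ℕ) : Net :=
  (((List.range x.1.length).map fun i => (A x.1 i, 0)) ++
      ((List.range x.1.length).map fun i => (A x.1 i, 1)),
    (List.range x.1.length).map fun i => A x.1 i,
    [((x.2 : ℚ), 0), ((x.1.sum : ℚ), 1)],
    two x.1.length (fun i => ((i, i), 1, A x.1 i)) (fun i => ((x.1.length + i, i), 0, A x.1 i)),
    two x.1.length (fun i => ((i, 0), -3, A x.1 i)) (fun i => ((i, 1), -1, A x.1 i)))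

/-- the threshold -/
def thr (x : List ℕ × ℕ) : ℚ := -(x.1.sum : ℚ) - (x.2 : ℚ)

variable (x : List ℕ × ℕ)

theorem A_nonneg (a : List ℕ) (i : ℕ) : 0 ≤ A a i := by unfold A; positivity

theorem sum_A (a : List ℕ) : ∑ i ∈ range a.length, ((A a i : ℚ) : ℝ) = (a.sum : ℝ) := by
  unfold A
  have : ∑ i ∈ range a.length, a.getD i 0 = a.sum := by
    rw [← Fin.sum_univ_eq_sum_range (fun i => a.getD i 0) a.length]
    rw [← List.sum_ofFn]
    congr 1
    apply List.ext_getElem
    · simp
    · intro i h1 h2
      simp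
  rw [← this]
  push_cast
  rfl

theorem netO_inputs_length : (netO x).inputs.length = x.1.length + x.1.length := by
  simp [netO, Net.inputs]

theorem netO_pools_length : (netO x).pools.length = x.1.length := by
  simp [netO, Net.pools]

theorem netO_outputs_length : (netO x).outputs.length = 2 := rfl

theorem netO_pools_getD {i : ℕ} (hi : i < x.1.length) : (netO x).pools.getD i 0 = A x.1 i := by
  rw [List.getD_eq_getElem _ _ (by rw [netO_pools_length]; exact hi)]
  simp [netO, Net.pools]

theorem netO_inputs_getD {i : ℕ} (hi : i < x.1.length) :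
    (netO x).inputs.getD i (0, 0) = (A x.1 i, 0) := by
  rw [List.getD_eq_getElem _ _ (by rw [netO_inputs_length]; omega)]
  simp only [netO, Net.inputs]
  rw [List.getElem_append_left (by simpa using hi)]
  simp

theorem netO_inputs_getD' {i : ℕ} (hi : i < x.1.length) :
    (netO x).inputs.getD (x.1.length + i) (0, 0) = (A x.1 i, 1) := by
  rw [List.getD_eq_getElem _ _ (by rw [netO_inputs_length]; omega)]
  simp only [netO, Net.inputs]
  rw [List.getElem_append_right (by simp)]
  simp

theorem netO_inI (f : ℕ × ℕ → ℝ) {l : ℕ} (hl : l < x.1.length) :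
    inSum (netO x).arcsI f l = f (l, l) + f (x.1.length + l, l) := by
  simp only [netO, Net.arcsI, inSum_two]
  rw [sum_add_distrib]
  simp [Finset.sum_ite_eq', hl]

theorem netO_outJ (f : ℕ × ℕ → ℝ) {l : ℕ} (hl : l < x.1.length) :
    outSum (netO x).arcsJ f l = f (l, 0) + f (l, 1) := by
  simp only [netO, Net.arcsJ, outSum_two]
  rw [sum_add_distrib]
  simp [Finset.sum_ite_eq', hl]

theorem netO_outI (f : ℕ × ℕ → ℝ) {l : ℕ} (hl : l < x.1.length) :
    outSum (netO x).arcsI f l = f (l, l) := by
  simp only [netO, Net.arcsI, outSum_two]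
  rw [sum_add_distrib]
  have : ∀ i, ¬ (x.1.length + i = l) := fun i => by omega
  simp [Finset.sum_ite_eq', hl, this]

theorem netO_outI' (f : ℕ × ℕ → ℝ) {l : ℕ} (hl : l < x.1.length) :
    outSum (netO x).arcsI f (x.1.length + l) = f (x.1.length + l, l) := by
  simp only [netO, Net.arcsI, outSum_two]
  rw [sum_add_distrib]
  have h1 : ∑ i ∈ range x.1.length, (if i = x.1.length + l then f (i, i) else 0) = 0 := by
    refine sum_eq_zero fun i hi => if_neg ?_
    have := mem_range.1 hi
    omega
  rw [h1]
  simp [Finset.sum_ite_eq', hl]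

theorem netO_inJ0 (f : ℕ × ℕ → ℝ) :
    inSum (netO x).arcsJ f 0 = ∑ i ∈ range x.1.length, f (i, 0) := by
  simp only [netO, Net.arcsJ, inSum_two]
  simp

theorem netO_inJ1 (f : ℕ × ℕ → ℝ) :
    inSum (netO x).arcsJ f 1 = ∑ i ∈ range x.1.length, f (i, 1) := by
  simp only [netO, Net.arcsJ, inSum_two]
  simp

theorem netO_cost (f g : ℕ × ℕ → ℝ) :
    cost (netO x) f g = ∑ i ∈ range x.1.length, (f (i, i) - 3 * g (i, 0) - g (i, 1)) := by
  unfold cost
  simp only [netO, Net.arcsJ, Net.arcsI, sum_two]
  rw [← sum_add_distrib]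
  refine sum_congr rfl fun i _ => ?_
  push_cast
  ring

theorem netO_valid : (netO x).Valid := by
  refine ⟨?_, ?_, ?_, ?_, ?_, ?_, ?_⟩
  · intro a ha
    rw [netO_inputs_length, netO_pools_length]
    obtain ⟨i, hi, rfl | rfl⟩ := mem_two.1 ha
    · exact ⟨by simp only; omega, hi, A_nonneg _ _⟩
    · exact ⟨by simp only; omega, hi, A_nonneg _ _⟩
  · intro a ha
    rw [netO_outputs_length, netO_pools_length]
    obtain ⟨i, hi, rfl | rfl⟩ := mem_two.1 ha
    · exact ⟨hi, by norm_num, A_nonneg _ _⟩
    · exact ⟨hi, by norm_num, A_nonneg _ _⟩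
  · simp only [netO, Net.arcsI, two]
    rw [List.map_append, List.map_map, List.map_map, List.nodup_append]
    refine ⟨List.nodup_range.map fun i j h => ?_, List.nodup_range.map fun i j h => ?_, ?_⟩
    · simpa using h
    · simpa using h
    · intro a ha b hb
      rw [List.mem_map] at ha hb
      obtain ⟨i, hi, rfl⟩ := ha
      obtain ⟨j, hj, rfl⟩ := hb
      rw [List.mem_range] at hi hj
      simp only [Function.comp_apply, ne_eq, Prod.mk.injEq, not_and]
      intro h
      omega
  · simp only [netO, Net.arcsJ, two]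
    rw [List.map_append, List.map_map, List.map_map, List.nodup_append]
    refine ⟨List.nodup_range.map fun i j h => ?_, List.nodup_range.map fun i j h => ?_, ?_⟩
    · simpa using h
    · simpa using h
    · intro a ha b hb
      rw [List.mem_map] at ha hb
      obtain ⟨i, hi, rfl⟩ := ha
      obtain ⟨j, hj, rfl⟩ := hb
      simp
  · intro v hv
    simp only [netO, Net.inputs, List.mem_append, List.mem_map] at hv
    rcases hv with ⟨i, -, rfl⟩ | ⟨i, -, rfl⟩ <;> exact A_nonneg _ _
  · intro v hv
    simp only [netO, Net.pools, List.mem_map] at hv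
    obtain ⟨i, -, rfl⟩ := hv
    exact A_nonneg _ _
  · intro v hv
    simp only [netO, Net.outputs, List.mem_cons, List.not_mem_nil, or_false] at hv
    rcases hv with rfl | rfl <;> positivity

theorem netO_deg : OutDegreesAtMostTwo (netO x) := by
  constructor
  · intro v _
    refine countP_two _ _ _ _ v (v - x.1.length) ?_ ?_
    · intro i _ h
      simpa using h
    · intro i _ h
      simp only [decide_eq_true_eq] at h
      omega
  · intro v _
    refine countP_two _ _ _ _ v v ?_ ?_
    · intro i _ h
      simpa using h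
    · intro i _ h
      simpa using h

theorem netO_of_feasible {f g : ℕ × ℕ → ℝ} {p : ℕ → ℝ} (h : Feasible (netO x) f g p)
    (hc : cost (netO x) f g ≤ thr x) : SubsetSum x := by
  have hx : x = (x.1, x.2) := rfl
  have hP := netO_pools_length x
  have hI : ∀ i < x.1.length, ((i, i), (1 : ℚ), A x.1 i) ∈ (netO x).arcsI := fun i hi =>
    mem_two.2 ⟨i, hi, Or.inl rfl⟩
  have hI' : ∀ i < x.1.length, ((x.1.length + i, i), (0 : ℚ), A x.1 i) ∈ (netO x).arcsI :=
    fun i hi => mem_two.2 ⟨i, hi, Or.inr rfl⟩
  have hJ : ∀ i < x.1.length, ((i, 0), (-3 : ℚ), A x.1 i) ∈ (netO x).arcsJ := fun i hi =>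
    mem_two.2 ⟨i, hi, Or.inl rfl⟩
  have hJ' : ∀ i < x.1.length, ((i, 1), (-1 : ℚ), A x.1 i) ∈ (netO x).arcsJ := fun i hi =>
    mem_two.2 ⟨i, hi, Or.inr rfl⟩
  obtain ⟨h1, h2⟩ := out_core (n := x.1.length) (a := fun i => (A x.1 i : ℝ))
    (u := fun i => f (i, i)) (h := fun i => f (x.1.length + i, i)) (s := fun i => g (i, 0))
    (t := fun i => g (i, 1)) (p := p) (B := (x.2 : ℝ))
    (fun i hi => (h.x_mem _ (hI i hi)).1) (fun i hi => (h.x_mem _ (hI' i hi)).1)
    (fun i hi => (h.y_mem _ (hJ i hi)).1) (fun i hi => (h.y_mem _ (hJ' i hi)).1)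
    (fun i hi => by
      have := h.conservation i (by rw [hP]; exact hi)
      rwa [netO_inI x _ hi, netO_outJ x _ hi] at this)
    (fun i hi => by
      have := h.pools_cap i (by rw [hP]; exact hi)
      rwa [netO_inI x _ hi, netO_pools_getD x hi] at this)
    (fun i hi => by
      have := h.pool_blending i (by rw [hP]; exact hi)
      rw [netO_inI x _ hi, netO_outJ x _ hi] at this
      simp only [netO_inputs_getD x hi, netO_inputs_getD' x hi] at this
      simpa using this)
    (by
      have := h.outputs_cap 0 (by rw [netO_outputs_length]; norm_num)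
      rw [netO_inJ0] at this
      simpa [netO, Net.outputs] using this)
    (by
      have := h.output_blending 0 (by rw [netO_outputs_length]; norm_num)
      rw [netO_inJ0] at this
      simpa [netO, Net.outputs] using this)
    (by
      rw [netO_cost] at hc
      rw [sum_A]
      refine hc.trans (le_of_eq ?_)
      simp only [thr, Rat.cast_sub, Rat.cast_neg, Rat.cast_natCast])
  rw [hx]
  refine subsetSum_of (s := fun i => g (i, 0)) ?_ h2
  intro i hi
  rcases h1 i hi with h3 | h3
  · exact Or.inl h3
  · right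
    rw [h3]
    unfold A
    push_cast
    rfl

theorem netO_feasible (h : SubsetSum x) : HasCost (netO x) (thr x) := by
  have h' : ∃ c : ℕ → Bool, (∑ i ∈ range x.1.length, if c i then x.1.getD i 0 else 0) = x.2 :=
    (sublist_sum_iff x.1 x.2).1 h
  obtain ⟨c, hc⟩ := h'
  have hA : ∀ i, (0 : ℝ) ≤ (A x.1 i : ℝ) := fun i => by exact_mod_cast A_nonneg _ _
  have hc' : ∑ i ∈ range x.1.length, (if c i then (A x.1 i : ℝ) else 0) = (x.2 : ℝ) := by
    rw [← hc]
    push_cast
    refine sum_congr rfl fun i _ => ?_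
    unfold A
    push_cast
    rfl
  have hnc : ∑ i ∈ range x.1.length, (if c i then 0 else (A x.1 i : ℝ)) =
      (x.1.sum : ℝ) - (x.2 : ℝ) := by
    rw [← hc', ← sum_A, ← sum_sub_distrib]
    refine sum_congr rfl fun i _ => ?_
    split_ifs <;> ring
  have hP := netO_pools_length x
  have hO := netO_outputs_length x
  refine ⟨fun a => if c a.2 then (if a.1 = a.2 then (A x.1 a.2 : ℝ) else 0) else
      (if a.1 = a.2 then 0 else (A x.1 a.2 : ℝ)),
    fun a => if c a.1 then (if a.2 = 0 then (A x.1 a.1 : ℝ) else 0) else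
      (if a.2 = 0 then 0 else (A x.1 a.1 : ℝ)),
    fun l => if c l then 0 else 1, ⟨?_, ?_, ?_, ?_, ?_, ?_, ?_, ?_⟩, ?_⟩
  · intro a ha
    obtain ⟨i, hi, rfl | rfl⟩ := mem_two.1 ha
    · dsimp only
      split_ifs <;> simp [hA]
    · dsimp only
      split_ifs <;> simp [hA]
  · intro a ha
    obtain ⟨i, hi, rfl | rfl⟩ := mem_two.1 ha
    · dsimp only
      split_ifs <;> simp_all
    · dsimp only
      split_ifs <;> simp_all
  · intro i hi
    rw [netO_inputs_length] at hi
    rcases Nat.lt_or_ge i x.1.length with h1 | h1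
    · rw [netO_outI x _ h1, netO_inputs_getD x h1]
      dsimp only
      split_ifs <;> simp [hA]
    · obtain ⟨j, rfl⟩ := Nat.exists_eq_add_of_le h1
      have h2 : j < x.1.length := by omega
      rw [netO_outI' x _ h2, netO_inputs_getD' x h2]
      dsimp only
      split_ifs <;> simp [hA]
  · intro l hl
    rw [hP] at hl
    rw [netO_inI x _ hl, netO_outJ x _ hl]
    have : ¬ (x.1.length + l = l) := by omega
    simp only [this, if_true, if_false, one_ne_zero]
  · intro l hl
    rw [hP] at hl
    rw [netO_inI x _ hl, netO_pools_getD x hl]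
    have : ¬ (x.1.length + l = l) := by omega
    simp only [this, if_true, if_false]
    split_ifs <;> simp
  · intro j hj
    rw [hO] at hj
    interval_cases j
    · rw [netO_inJ0]
      simp only [if_true]
      rw [hc']
      simp [netO, Net.outputs]
    · rw [netO_inJ1]
      simp only [one_ne_zero, if_false]
      rw [hnc]
      have h1 : ((netO x).outputs.getD 1 (0, 0)).1 = (x.1.sum : ℚ) := rfl
      rw [h1, Rat.cast_natCast]
      have h2 : (0 : ℝ) ≤ x.2 := Nat.cast_nonneg _
      linarith
  · intro l hl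
    rw [hP] at hl
    rw [netO_inI x _ hl, netO_outJ x _ hl]
    simp only [netO_inputs_getD x hl, netO_inputs_getD' x hl]
    have : ¬ (x.1.length + l = l) := by omega
    simp only [this, if_true, if_false, one_ne_zero]
    split_ifs <;> simp
  · intro j hj
    rw [hO] at hj
    interval_cases j
    · rw [netO_inJ0, netO_inJ0]
      simp only [if_true]
      have : ∑ i ∈ range x.1.length, ((if c i = true then (0 : ℝ) else 1) *
          (if c i = true then (A x.1 i : ℝ) else 0)) = 0 := by
        refine sum_eq_zero fun i _ => ?_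
        split_ifs <;> simp
      rw [this]
      simp [netO, Net.outputs]
    · rw [netO_inJ1, netO_inJ1]
      simp only [one_ne_zero, if_false]
      refine le_of_eq ?_
      simp only [netO, Net.outputs, List.getD_cons_succ, List.getD_cons_zero, Rat.cast_one, one_mul]
      refine sum_congr rfl fun i _ => ?_
      split_ifs <;> simp
  · rw [netO_cost]
    simp only [if_true, one_ne_zero, if_false]
    have : ∑ i ∈ range x.1.length, ((if c i = true then (A x.1 i : ℝ) else 0) -
        3 * (if c i = true then (A x.1 i : ℝ) else 0) -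
        (if c i = true then (0 : ℝ) else (A x.1 i : ℝ))) =
        -2 * ∑ i ∈ range x.1.length, (if c i then (A x.1 i : ℝ) else 0) -
        ∑ i ∈ range x.1.length, (if c i then 0 else (A x.1 i : ℝ)) := by
      rw [mul_sum, ← sum_sub_distrib]
      refine sum_congr rfl fun i _ => ?_
      ring
    rw [this, hc', hnc]
    simp only [thr, Rat.cast_sub, Rat.cast_neg, Rat.cast_natCast]
    linarith

end Q229.PL
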