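import Pool.Agent.Q229.PL.Defs

/-!
# Sums over lists of arcs
-/

set_option autoImplicit false

namespace Q229.PL

theorem sum_map_range (n : ℕ) (f : ℕ → ℝ) :
    ((List.range n).map f).sum = ∑ i ∈ Finset.range n, f i := by
  induction n with
  | zero => simp
  | succ n ih => rw [List.range_succ, List.map_append, List.sum_append, ih,
      Finset.sum_range_succ]; simp

/-- two families of arcs -/
def two (n : ℕ) (P Q : ℕ → Arc) : List Arc := (List.range n).map P ++ (List.range n).map Q

theorem mem_two {n : ℕ} {P Q : ℕ → Arc} {a : Arc} :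
    a ∈ two n P Q ↔ ∃ i < n, a = P i ∨ a = Q i := by
  unfold two
  rw [List.mem_append, List.mem_map, List.mem_map]
  simp only [List.mem_range]
  constructor
  · rintro (⟨i, hi, rfl⟩ | ⟨i, hi, rfl⟩)
    · exact ⟨i, hi, Or.inl rfl⟩
    · exact ⟨i, hi, Or.inr rfl⟩
  · rintro ⟨i, hi, rfl | rfl⟩
    · exact Or.inl ⟨i, hi, rfl⟩
    · exact Or.inr ⟨i, hi, rfl⟩

theorem sum_two (n : ℕ) (P Q : ℕ → Arc) (g : Arc → ℝ) :
    ((two n P Q).map g).sum = ∑ i ∈ Finset.range n, (g (P i) + g (Q i)) := by
  unfold two
  rw [List.map_append, List.sum_append, List.map_map, List.map_map, sum_map_range, sum_map_range,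
    ← Finset.sum_add_distrib]
  rfl

theorem countP_map_range (n : ℕ) (P : ℕ → Arc) (q : Arc → Bool) (v : ℕ)
    (h : ∀ i < n, q (P i) = true → i = v) : ((List.range n).map P).countP q ≤ 1 := by
  rw [List.countP_map, List.countP_eq_length_filter]
  have h1 : ((List.range n).filter (q ∘ P)).Nodup := List.nodup_range.filter _
  have h2 : ∀ i ∈ (List.range n).filter (q ∘ P), i = v := by
    intro i hi
    rw [List.mem_filter, List.mem_range] at hi
    exact h i hi.1 hi.2
  rcases hl : (List.range n).filter (q ∘ P) with _ | ⟨a, _ | ⟨b, l⟩⟩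
  · simp
  · simp
  · rw [hl] at h1 h2
    have ha := h2 a (by simp)
    have hb := h2 b (by simp)
    subst ha
    subst hb
    simp at h1

theorem countP_two (n : ℕ) (P Q : ℕ → Arc) (q : Arc → Bool) (v w : ℕ)
    (h : ∀ i < n, q (P i) = true → i = v) (h' : ∀ i < n, q (Q i) = true → i = w) :
    (two n P Q).countP q ≤ 2 := by
  unfold two
  rw [List.countP_append]
  have := countP_map_range n P q v h
  have := countP_map_range n Q q w h'
  omega

end Q229.PL
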